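import Pool.Agent.L7h9.MA.Fin

/-!
# MP_57adf2_an, Q2: the limit of `R_N(A)` exists and is positive

Positive answer to Q2: for a finitely generated multiplicative measure preserving action and a
measurable set `A` of positive measure, the averages
`R_N(A) = N⁻² ∑_{m, n ≤ N} μ(A ∩ T_{mn}⁻¹ A ∩ T_{m+n}⁻¹ A ∩ T_m⁻¹ A ∩ T_n⁻¹ A)`
converge to a strictly positive limit.

Sketch. Colour the primes by the map `T_p`; a colour is large if the sum of the reciprocals of its
primes diverges. Let `F` be the set of the integers without prime factors of a small colour; it has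
a positive density `d`. Put `η = 1_A`.

* The existence of the limit is part of the positive answer to Q1 (starting files
  `Pool.Agent.K7.H83.MA`). From there we also use that the average tends to `0` if the function
  under `T_{m+n}` is orthogonal to the *nearly periodic* functions (those for which `k ↦ T_k F`
  agrees with a periodic function off a set of `k` of arbitrarily small upper density). So the
  function under `T_{m+n}` may be replaced by the projection `θ` of `η` to the closed span of the
  nearly periodic functions. This space is stable under truncation, whence `0 ≤ θ ≤ 1`, and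
  `∫ η θ ≥ (∫ η)²`.
* Given `ε > 0`, off a set of `k` of upper density at most `ε`, `T_k θ` depends only on `k` modulo
  some `Q₀`, up to `ε` in `L²`. Restrict the double sum to `m = Q a` and `n`, with `a, n ∈ F` and `Q`
  a multiple of `Q₀`. There `T_{m+n} θ` may be replaced by `T_n θ`, and the summand is at least
  `∫ ζ · T_m ζ · T_n ζ · T_{mn} ζ` with `ζ = η θ`, up to an error `O(ε)`.
* The averages of `∫ ζ · T_m ζ · T_n ζ · T_{mn} ζ` over these pairs are asymptotically at least
  `β²`, `β = ∫ ζ · T_Q P ζ`, with `P` the projection to the functions that are invariant under the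
  maps of the large colours (this uses the equidistribution of the exponents of the large colours
  and the Cauchy-Schwarz inequality).
* For `ε` fixed, `Q` may be taken to be a power of `Q₀` with `β ≥ (∫ ζ)² / 2`, by a quantitative
  form of the Poincaré recurrence theorem for the vector `P ζ`. As this lower bound does not depend
  on `ε`, and both the main term and the error carry the same density `d² / Q` of the pairs (the
  error `O(ε)` is relative to the number of the `m`), the limit is positive.
-/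

set_option autoImplicit false
set_option linter.unusedSectionVars false

open Finset Filter Topology MeasureTheory
open scoped ENNReal

namespace Pool.Agent.Results.MP_57adf2_an.PositiveRecurrence

open Pool.Agent.K7.H83.MA Pool.Agent.L7h9.MA

/-- A multiplicative measure preserving action (identities between maps are understood almost
everywhere): `T n`, `n ≥ 1`, are measure preserving maps, invertible modulo null sets, with
`T 1 = id` and `T (m n) = T m ∘ T n`. -/
structure MultAction {X : Type*} [MeasurableSpace X] (μ : Measure X) (T : ℕ → X → X) : Prop where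
  mp : ∀ n, 0 < n → MeasurePreserving (T n) μ μ
  inv : ∀ n, 0 < n → ∃ S : X → X, MeasurePreserving S μ μ ∧ (∀ᵐ x ∂μ, S (T n x) = x) ∧
    (∀ᵐ x ∂μ, T n (S x) = x)
  one : ∀ᵐ x ∂μ, T 1 x = x
  mul : ∀ m n, 0 < m → 0 < n → ∀ᵐ x ∂μ, T (m * n) x = T m (T n x)

/-- The action is finitely generated: up to equality almost everywhere, only finitely many maps
occur among the `T p`, `p` prime. -/
def FinGen {X : Type*} [MeasurableSpace X] (μ : Measure X) (T : ℕ → X → X) : Prop :=
  ∃ V : Set (X → X), V.Finite ∧ ∀ p : ℕ, p.Prime → ∃ S ∈ V, T p =ᵐ[μ] S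

/-- The average
`R_N(A) = N⁻² ∑_{m, n ≤ N} μ(A ∩ T_{mn}⁻¹ A ∩ T_{m+n}⁻¹ A ∩ T_m⁻¹ A ∩ T_n⁻¹ A)`. -/
noncomputable def RAv {X : Type*} [MeasurableSpace X] (μ : Measure X) (T : ℕ → X → X) (A : Set X)
    (N : ℕ) : ℝ :=
  1 / (N : ℝ) ^ 2 * ∑ m ∈ Icc 1 N, ∑ n ∈ Icc 1 N,
    (μ (A ∩ T (m * n) ⁻¹' A ∩ T (m + n) ⁻¹' A ∩ T m ⁻¹' A ∩ T n ⁻¹' A)).toReal

theorem exists_col {X : Type*} [MeasurableSpace X] {μ : Measure X} {T : ℕ → X → X}
    (hT : MultAction μ T) (hfg : FinGen μ T) : ∃ (r : ℕ) (c : ℕ → Fin r), Sys c μ T := by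
  classical
  obtain ⟨V, hV, hVT⟩ := hfg
  have h1 : ∀ p : ℕ, ∃ S : hV.toFinset, p.Prime → T p =ᵐ[μ] (S : X → X) := by
    intro p
    by_cases hp : p.Prime
    · obtain ⟨S, hS, hTS⟩ := hVT p hp
      exact ⟨⟨S, hV.mem_toFinset.2 hS⟩, fun _ => hTS⟩
    · obtain ⟨S, hS, hTS⟩ := hVT 2 Nat.prime_two
      exact ⟨⟨S, hV.mem_toFinset.2 hS⟩, fun h => absurd h hp⟩
  choose S hS using h1
  refine ⟨hV.toFinset.card, fun p => hV.toFinset.equivFin (S p), hT.mp, hT.inv, hT.one, hT.mul,
    fun p q hp hq hpq => ?_⟩
  have h2 : S p = S q := hV.toFinset.equivFin.injective hpq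
  have h3 := hS p hp
  rw [h2] at h3
  exact h3.trans (hS q hq).symm

theorem tm_ind {X : Type*} [MeasurableSpace X] {μ : Measure X} [IsProbabilityMeasure μ]
    {T : ℕ → X → X} (hT : MultAction μ T) {A : Set X} (hA : MeasurableSet A) {m n : ℕ}
    (hm : 0 < m) (hn : 0 < n) :
    tm μ T (A.indicator fun _ => (1 : ℝ)) (A.indicator fun _ => (1 : ℝ)) m n =
      (μ (A ∩ T (m * n) ⁻¹' A ∩ T (m + n) ⁻¹' A ∩ T m ⁻¹' A ∩ T n ⁻¹' A)).toReal := by
  classical
  have hmeas : MeasurableSet (A ∩ T (m * n) ⁻¹' A ∩ T (m + n) ⁻¹' A ∩ T m ⁻¹' A ∩ T n ⁻¹' A) := by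
    refine (((hA.inter ?_).inter ?_).inter ?_).inter ?_
    · exact (hT.mp _ (Nat.mul_pos hm hn)).measurable hA
    · exact (hT.mp _ (by omega)).measurable hA
    · exact (hT.mp _ hm).measurable hA
    · exact (hT.mp _ hn).measurable hA
  have h1 : (fun x => WW T (A.indicator fun _ => (1 : ℝ)) m n x *
      (A.indicator (fun _ => (1 : ℝ)) (T (m + n) x))) =
      (A ∩ T (m * n) ⁻¹' A ∩ T (m + n) ⁻¹' A ∩ T m ⁻¹' A ∩ T n ⁻¹' A).indicator
        (fun _ => (1 : ℝ)) := by
    funext x
    unfold WW
    simp only [Set.indicator_apply, Set.mem_inter_iff, Set.mem_preimage]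
    by_cases h1 : x ∈ A <;> by_cases h2 : T (m * n) x ∈ A <;> by_cases h3 : T (m + n) x ∈ A <;>
      by_cases h4 : T m x ∈ A <;> by_cases h5 : T n x ∈ A <;> simp [h1, h2, h3, h4, h5]
  unfold tm
  rw [h1, integral_indicator_const _ hmeas]
  simp [Measure.real]

/-- **Q2, answered in the affirmative.** Let `(X, μ)` be a standard Borel probability space and
`(T n)` a finitely generated multiplicative measure preserving action on it. Then for every
measurable set `A` with `μ(A) > 0` the averages
`R_N(A) = N⁻² ∑_{m, n ≤ N} μ(A ∩ T_{mn}⁻¹ A ∩ T_{m+n}⁻¹ A ∩ T_m⁻¹ A ∩ T_n⁻¹ A)` converge, and their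
limit is strictly positive. -/
theorem result {X : Type*} [MeasurableSpace X] [StandardBorelSpace X] (μ : Measure X)
    [IsProbabilityMeasure μ] (T : ℕ → X → X) (hT : MultAction μ T) (hfg : FinGen μ T)
    (A : Set X) (hA : MeasurableSet A) (hpos : 0 < μ A) :
    ∃ R : ℝ, 0 < R ∧ Tendsto (fun N : ℕ => RAv μ T A N) atTop (𝓝 R) := by
  classical
  obtain ⟨r, c, hs⟩ := exists_col hT hfg
  have hη : UF (A.indicator fun _ => (1 : ℝ)) := by
    refine ⟨measurable_const.indicator hA, fun x => ?_, fun x => ?_⟩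
    · exact Set.indicator_nonneg (fun _ _ => zero_le_one) x
    · exact Set.indicator_le_self' (fun _ _ => zero_le_one) x
  have hint : 0 < ∫ x, A.indicator (fun _ => (1 : ℝ)) x ∂μ := by
    rw [integral_indicator_const _ hA, smul_eq_mul, mul_one]
    exact ENNReal.toReal_pos hpos.ne' (measure_ne_top μ A)
  obtain ⟨R, hR, hlim⟩ := main hs hη hint
  refine ⟨R, hR, hlim.congr fun N => ?_⟩
  unfold RAv
  have hI : (Icc 1 N : Finset ℕ) = Ioc 0 N := by
    ext k; rw [mem_Icc, mem_Ioc]; omega
  have hN : 1 / (N : ℝ) ^ 2 = (N : ℝ)⁻¹ * (N : ℝ)⁻¹ := by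
    rw [one_div, sq, mul_inv]
  rw [hI, hN]
  congr 1
  refine Finset.sum_congr rfl fun m hm => Finset.sum_congr rfl fun n hn => ?_
  rw [mem_Ioc] at hm hn
  exact tm_ind hT hA hm.1 hn.1

end Pool.Agent.Results.MP_57adf2_an.PositiveRecurrence
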